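import Pool.Agent.Helper87.VM.Lib2

set_option autoImplicit false

namespace Pool.Agent.Helper87.VM

open MvPolynomial Pool.Agent.Helper48.VMRT

theorem cup_psum (κ : Type) [Fintype κ] {k : ℕ} (hk : 1 ≤ k) (hk2 : k + 2 ≤ Fintype.card κ) {z : κ → ℂ}
    (hz : z ∈ Bc κ) : eval z (psum κ ℂ k) = 0 := by
  have h1 := MvPolynomial.psum_eq_mul_esymm_sub_sum κ ℂ k hk
  rw [h1, map_sub, map_sum]
  have h2 : eval z (esymm κ ℂ k) = 0 := hz k hk hk2
  rw [map_mul, h2, mul_zero, zero_sub, neg_eq_zero]
  apply Finset.sum_eq_zero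
  intro a ha
  rw [Finset.mem_filter] at ha
  have h3 : eval z (esymm κ ℂ a.1) = 0 := hz a.1 ha.2.1 (by have := ha.2.2; omega)
  rw [map_mul, map_mul, h3, mul_zero, zero_mul]

theorem cup_sum (κ : Type) [Fintype κ] {m : ℕ} (hm : m + 3 ≤ Fintype.card κ) {z : κ → ℂ}
    {v : κ → ℂ} (hv : v ∈ tsp (Bc κ) z) : ∑ i, v i * z i ^ m = 0 := by
  classical
  have h1 : psum κ ℂ (m + 1) ∈ vanishingIdeal ℂ (Bc κ) :=
    mem_vI.2 fun y hy => cup_psum κ (by omega) (by omega) hy
  have h2 := hv _ h1
  have h3 : dpol (psum κ ℂ (m + 1)) z v = (m + 1 : ℂ) * ∑ i, v i * z i ^ m := by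
    rw [psum, dpol_sum, Finset.mul_sum]
    refine Finset.sum_congr rfl fun i _ => ?_
    have h4 : ∀ n : ℕ, dpol ((X i : MvPolynomial κ ℂ) ^ (n + 1)) z v = (n + 1 : ℂ) * (v i * z i ^ n) := by
      intro n
      induction n with
      | zero => simp
      | succ n ih =>
        rw [pow_succ, dpol_mul, ih, dpol_X, map_pow, eval_X]
        push_cast
        ring
    exact h4 m
  rw [h3] at h2
  exact (mul_eq_zero.1 h2).resolve_left (by exact_mod_cast Nat.succ_ne_zero m)

theorem st_CUP (h1 : ST_CDIST) : ST_CUP := by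
  intro κ _ hκ z hz hz0
  classical
  obtain ⟨hd, -⟩ := h1 κ hκ z hz hz0
  have hR : (Set.range z).ncard = (Finset.univ.image z).card := by
    rw [← Set.ncard_coe_finset]
    congr 1
    simp
  rw [hR] at hd
  obtain ⟨S, hS, hScard⟩ := Finset.exists_subset_card_eq (s := Finset.univ.image z)
    (n := Fintype.card κ - 2) (by omega)
  have hch : ∀ x : S, ∃ i : κ, z i = x := by
    intro x
    have := hS x.2
    rw [Finset.mem_image] at this
    obtain ⟨i, -, hi⟩ := this
    exact ⟨i, hi⟩
  choose f hf using hch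
  let eqv := S.equivFinOfCardEq hScard
  let ι : Fin (Fintype.card κ - 2) → κ := fun m => f (eqv.symm m)
  have hzι : ∀ m, z (ι m) = (eqv.symm m : ℂ) := fun m => hf _
  have hinj : Function.Injective (fun m => z (ι m)) := by
    intro m m' h
    have h2 : ((eqv.symm m : S) : ℂ) = (eqv.symm m' : S) := by
      rw [← hzι, ← hzι]
      exact h
    exact eqv.symm.injective (Subtype.ext h2)
  have hι : Function.Injective ι := fun m m' h => hinj (congrArg z h)
  -- restriction to the complement of the range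
  let C : Type := {i : κ // i ∉ Finset.univ.image ι}
  let R : (κ → ℂ) →ₗ[ℂ] (C → ℂ) := LinearMap.funLeft ℂ ℂ (fun c : C => (c : κ))
  have hker : Function.Injective (R.comp (tsp (Bc κ) z).subtype) := by
    rw [← LinearMap.ker_eq_bot, LinearMap.ker_eq_bot']
    rintro ⟨v, hv⟩ h
    have hv0 : ∀ i, i ∉ Finset.univ.image ι → v i = 0 := by
      intro i hi
      exact congrFun h (⟨i, hi⟩ : C)
    have hsum : ∀ m : Fin (Fintype.card κ - 2), ∑ j, v (ι j) * z (ι j) ^ (m : ℕ) = 0 := by
      intro m
      have h3 := cup_sum κ (m := m) (by have := m.2; omega) hv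
      rw [← h3]
      rw [← Finset.sum_image (f := fun i => v i * z i ^ (m : ℕ)) (s := Finset.univ) (g := ι)
        (fun a _ b _ hab => hι hab)]
      apply Finset.sum_subset (Finset.subset_univ _)
      intro i _ hi
      rw [hv0 i hi, zero_mul]
    have h4 := Matrix.eq_zero_of_forall_pow_sum_mul_pow_eq_zero (f := fun j => z (ι j))
      (v := fun j => v (ι j)) hinj hsum
    apply Subtype.ext
    funext i
    by_cases hi : i ∈ Finset.univ.image ι
    · rw [Finset.mem_image] at hi
      obtain ⟨j, -, rfl⟩ := hi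
      exact congrFun h4 j
    · exact hv0 i hi
  have h5 := LinearMap.finrank_le_finrank_of_injective hker
  have h6 : Module.finrank ℂ (C → ℂ) = 2 := by
    rw [Module.finrank_fintype_fun_eq_card]
    have h7 : Fintype.card C = Fintype.card κ - (Finset.univ.image ι).card := by
      rw [Fintype.card_subtype_compl, Fintype.card_coe]
    rw [h7, Finset.card_image_of_injective _ hι, Finset.card_univ, Fintype.card_fin]
    omega
  rw [h6] at h5
  exact h5

end Pool.Agent.Helper87.VM
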