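import Pool.Agent.Helper87.VM.Lib2

set_option autoImplicit false

namespace Pool.Agent.Helper87.VM

open MvPolynomial Pool.Agent.Helper48.VMRT

theorem st_CURV (h1 : ST_VERT) (h2 : ST_LIFT) (h3 : ST_YC) : ST_CURV := by
  intro D hD L hL e c he hed hc hX hne
  obtain ⟨b, hb, hb0, hv⟩ := h1 D hD e c hed hc hX
  obtain ⟨e', y, hee, hy, hyY, hyc⟩ := h2 D hD e c b hc hb hb0 hv
  have hk := hD.kpos
  have he'a : e' ≤ D.a := by
    have h4 : D.k * e' ≤ D.k * D.a := by
      rw [← hee]
      exact hed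
    exact Nat.le_of_mul_le_mul_left h4 hk
  have he'1 : e' ≠ 0 := by
    rintro rfl
    omega
  obtain ⟨s0, t0, hst⟩ := hne
  have hy0 : hevv e' y s0 t0 ≠ 0 := by
    intro h
    apply hst
    rw [hyc, h]
    have h5 := ev2_smul_right hD.xd.hom 0 b (0 : Option (Fin D.w) × D.ν → ℂ)
    rw [zero_smul, zero_pow (by omega), zero_smul] at h5
    rw [h5]
    exact L.zero_mem
  have hj : ∃ j, hevv e' y s0 t0 (none, j) ≠ 0 := by
    by_contra hn
    push Not at hn
    apply hst
    rw [hyc]
    exact (hL b hb hb0 _ (hyY s0 t0) hy0).2 hn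
  obtain ⟨j, hj⟩ := hj
  rcases h3 D hD e' y he'a hy hyY ⟨s0, t0, j, hj⟩ with h | ⟨hea, p, q, c0, hc0, hind, hpq, hZ, hgr⟩
  · exact absurd h he'1
  refine ⟨by rw [hee, hea]; rfl, ?_⟩
  have ha := hD.fd.two_le
  obtain ⟨lam, hlam⟩ := IsAlgClosed.exists_pow_nat_eq (c0⁻¹) (show 0 < D.a by omega)
  have hlam0 : lam ≠ 0 := by
    rintro rfl
    rw [zero_pow (by omega)] at hlam
    exact inv_ne_zero hc0 hlam.symm
  have hcone : ∀ (r : ℂ), ∀ z ∈ D.Z, r • z ∈ D.Z := by
    intro r z hz
    obtain ⟨i, hi⟩ := Set.mem_iUnion.1 hz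
    exact Set.mem_iUnion.2 ⟨i, hD.Zcone i r z hi⟩
  refine ⟨b, lam • p, lam • q, ⟨hb, hb0, ?_, ?_, ?_⟩, ?_⟩
  · rw [LinearIndependent.pair_iff] at hind ⊢
    intro s t hst'
    have h6 : (s * lam) • p + (t * lam) • q = 0 := by
      rw [← hst', smul_smul, smul_smul]
    have h7 := hind _ _ h6
    exact ⟨(mul_eq_zero.1 h7.1).resolve_right hlam0, (mul_eq_zero.1 h7.2).resolve_right hlam0⟩
  · rcases hpq with h | h
    · left
      exact mul_ne_zero hlam0 h
    · right
      exact mul_ne_zero hlam0 h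
  · have h8 := hcone (lam * lam) _ hZ
    have h9 : (fun i => (lam • q) none * (lam • p) (some i) - (lam • p) none * (lam • q) (some i)) =
        (lam * lam) • (fun i => q none * p (some i) - p none * q (some i)) := by
      funext i
      simp only [Pi.smul_apply, smul_eq_mul]
      ring
    rw [h9]
    exact h8
  · intro s t
    have h10 : s • lam • p + t • lam • q = lam • (s • p + t • q) := by
      rw [smul_add, smul_comm s lam, smul_comm t lam]
    have h11 : D.gr (s • lam • p + t • lam • q) =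
        (s * (lam • p) none + t * (lam • q) none) • hevv e' y s t := by
      rw [h10, VD.gr_smul D hD.fd.hom, hgr s t, smul_smul]
      congr 1
      simp only [Pi.smul_apply, smul_eq_mul]
      have h12 : lam ^ D.a * c0 = 1 := by
        rw [hlam]
        exact inv_mul_cancel₀ hc0
      linear_combination (lam * (s * p none + t * q none)) * h12
    rw [h11, ev2_smul_right hD.xd.hom, hyc]

end Pool.Agent.Helper87.VM
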