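import Pool.Agent.Helper87.VM.Lib2

set_option autoImplicit false

namespace Pool.Agent.Helper87.VM

open MvPolynomial Pool.Agent.Helper48.VMRT

theorem st_ISO (h1 : ST_VT) (h2 : ST_VTS) : ST_ISO := by
  intro D hD L hL v hv hv0 hvL
  obtain ⟨b, hb, hb0, u, hvb, htan⟩ := h1 D hD L hL v hv hv0 hvL
  obtain ⟨g, hg, hgz, hbot, htop⟩ := h2 D hD b hb hb0 u
  rw [← hvb] at hbot htop
  refine ⟨g, hg, hbot, ?_, ?_⟩
  · rw [tangentSpace_eq_tsp]
    exact htop
  · have hS : tangents D.H v = {u | ∃ z ∈ D.Z, ∃ a : ℂ, u = g (z, 0) + a • v} := by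
      rw [htan]
      ext u'
      constructor
      · rintro ⟨z, hz, a, h⟩
        exact ⟨z, hz, a, by rw [hgz]; exact h⟩
      · rintro ⟨z, hz, a, h⟩
        exact ⟨z, hz, a, by rw [hgz] at h; exact h⟩
    rw [vmrtCone, hS]
    change ZClosed {u | ∃ z ∈ D.Z, ∃ a : ℂ, u = g (z, 0) + a • v}
    let Φ : ((Fin D.w → ℂ) × ℂ) →ₗ[ℂ] (Fin (D.N + 1) → ℂ) :=
      g.comp ((LinearMap.inl ℂ (Fin D.w → ℂ) ℂ).comp (LinearMap.fst ℂ (Fin D.w → ℂ) ℂ)) +
        (LinearMap.snd ℂ (Fin D.w → ℂ) ℂ).smulRight v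
    have hΦ : ∀ z a, Φ (z, a) = g (z, 0) + a • v := fun z a => rfl
    have hinj : Function.Injective Φ := by
      rw [← LinearMap.ker_eq_bot, LinearMap.ker_eq_bot']
      rintro ⟨z, a⟩ h
      rw [hΦ] at h
      have h3 : g (z, 0) = (-a) • v := by
        rw [neg_smul]
        exact eq_neg_of_add_eq_zero_left h
      have h4 : g (z, 0) ∈ LinearMap.range g ⊓ Submodule.span ℂ {v} :=
        ⟨⟨(z, 0), rfl⟩, by rw [h3]; exact Submodule.smul_mem _ _ (Submodule.mem_span_singleton_self v)⟩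
      rw [hbot, Submodule.mem_bot] at h4
      rw [h4, zero_add] at h
      have h5 : a = 0 := (smul_eq_zero.1 h).resolve_right hv0
      have h6 : ((z, 0) : (Fin D.w → ℂ) × ℂ) = 0 := hg (by rw [h4, map_zero])
      rw [h5]
      exact h6
    obtain ⟨r, hr⟩ := LinearMap.exists_leftInverse_of_injective Φ (LinearMap.ker_eq_bot.2 hinj)
    have hr' : ∀ p, r (Φ p) = p := fun p => LinearMap.congr_fun hr p
    let Q : (Fin (D.N + 1) → ℂ) →ₗ[ℂ] (Fin D.w → ℂ) := (LinearMap.fst ℂ (Fin D.w → ℂ) ℂ).comp r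
    have hset : {u | ∃ z ∈ D.Z, ∃ a : ℂ, u = g (z, 0) + a • v} =
        (LinearMap.range Φ : Set (Fin (D.N + 1) → ℂ)) ∩
          {x | ev (fun j => linp ((LinearMap.proj j : (Fin D.w → ℂ) →ₗ[ℂ] ℂ).comp Q)) x ∈ D.Z} := by
      ext x
      constructor
      · rintro ⟨z, hz, a, rfl⟩
        refine ⟨⟨(z, a), hΦ z a⟩, ?_⟩
        change ev _ _ ∈ D.Z
        rw [ev_linp]
        change (r (g (z, 0) + a • v)).1 ∈ D.Z
        rw [← hΦ, hr']
        exact hz
      · rintro ⟨⟨p, rfl⟩, h⟩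
        change ev _ _ ∈ D.Z at h
        rw [ev_linp] at h
        change (r (Φ p)).1 ∈ D.Z at h
        rw [hr'] at h
        exact ⟨p.1, h, p.2, rfl⟩
    rw [hset]
    exact zclosed_inter (zclosed_submodule _) (zclosed_preimage hD.ZZcl _)

end Pool.Agent.Helper87.VM
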