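import Pool.Agent.Helper87.VM.Lib2

set_option autoImplicit false

namespace Pool.Agent.Helper87.VM

open MvPolynomial Pool.Agent.Helper48.VMRT

theorem nf_tpos {D : VD} (hD : D.Good) : 1 ≤ D.k * D.t :=
  Nat.mul_pos hD.kpos (lt_of_le_of_lt (Nat.zero_le _) hD.tbig)

theorem st_NF : ST_NF := by
  intro D hD L hL v hv hv0 hvL
  obtain ⟨b, hb, y, hy, rfl⟩ := hv
  have hT := nf_tpos hD
  have hb0 : b ≠ 0 := by
    rintro rfl
    apply hv0
    have h1 := ev2_smul_left hD.xd.hom 0 (0 : D.κB → ℂ) y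
    rw [zero_smul, zero_pow (by omega), zero_smul] at h1
    exact h1
  have hy0 : y ≠ 0 := by
    rintro rfl
    apply hv0
    have h1 := ev2_smul_right hD.xd.hom 0 b (0 : Option (Fin D.w) × D.ν → ℂ)
    have hk := hD.kpos
    rw [zero_smul, zero_pow (by omega), zero_smul] at h1
    exact h1
  have h2 : ∃ j, y (none, j) ≠ 0 := by
    by_contra hn
    push Not at hn
    exact hvL ((hL b hb hb0 y hy hy0).2 hn)
  obtain ⟨j, hj⟩ := h2
  obtain ⟨x, η, hxy, hs⟩ := hy
  have hx : x none ≠ 0 := by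
    intro h
    apply hj
    rw [hxy, seg_apply, h, zero_mul]
  have hF : ev D.F x ≠ 0 := by
    intro h
    have h3 := (hD.fd.zero x).1 (fun j => congrFun h j)
    exact hx h3.1
  obtain ⟨c, hc⟩ := hs.eq_smul hF
  have h4 : x = x none • ov 1 ((x none)⁻¹ • fun i => x (some i)) := by
    rw [← ov_smul, mul_one, smul_smul, mul_inv_cancel₀ hx, one_smul, ov_eta]
  let u : Fin D.w → ℂ := (x none)⁻¹ • fun i => x (some i)
  have h5 : y = (c * (x none) ^ (D.a + 1)) • D.gr (ov 1 u) := by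
    have h6 : y = c • D.gr x := by
      rw [hxy, hc, seg_smul_right]
      rfl
    have h7 : D.gr x = (x none) ^ (D.a + 1) • D.gr (ov 1 u) := by
      rw [← VD.gr_smul D hD.fd.hom, ← h4]
    rw [h6, h7, smul_smul]
  have hc' : c * (x none) ^ (D.a + 1) ≠ 0 := by
    intro h
    apply hy0
    rw [h5, h, zero_smul]
  obtain ⟨lam, hlam⟩ := IsAlgClosed.exists_pow_nat_eq ((c * (x none) ^ (D.a + 1)) ^ D.k) hT
  have hlam0 : lam ≠ 0 := by
    rintro rfl
    rw [zero_pow (by omega)] at hlam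
    exact pow_ne_zero D.k hc' hlam.symm
  refine ⟨lam • b, hD.Bpm.cone lam b hb, smul_ne_zero hlam0 hb0, u, ?_⟩
  rw [ev2_smul_left hD.xd.hom, hlam, h5, ev2_smul_right hD.xd.hom]

end Pool.Agent.Helper87.VM
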