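import Pool.Agent.Helper87.VM.Lib2

set_option autoImplicit false

namespace Pool.Agent.Helper87.VM

open MvPolynomial Pool.Agent.Helper48.VMRT

theorem yfib_surj {m n : Type} [Fintype m] [Fintype n] (M : Matrix m n ℂ)
    (h : LinearIndependent ℂ (fun i => M i)) (b : m → ℂ) : ∃ u : n → ℂ, ∀ i, ∑ o, M i o * u o = b i := by
  classical
  have h1 : M.rank = Fintype.card m := LinearIndependent.rank_matrix h
  have h2 : LinearMap.range M.mulVecLin = ⊤ := by
    apply Submodule.eq_top_of_finrank_eq
    rw [Module.finrank_fintype_fun_eq_card]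
    exact h1
  have h3 : b ∈ LinearMap.range M.mulVecLin := by
    rw [h2]
    exact Submodule.mem_top
  obtain ⟨u, hu⟩ := h3
  refine ⟨u, fun i => ?_⟩
  have := congrFun hu i
  simpa [Matrix.mulVec, dotProduct] using this

theorem st_YFIB : ST_YFIB := by
  intro G ν _ _ w Z ρ a F ρν hfd z hz hz0 η hη
  classical
  obtain ⟨c, I, hind, h, P, hh, hP⟩ := hfd.loc z hz hz0
  obtain ⟨u, hu⟩ := yfib_surj (fun (i : Fin c) (o : Option (Fin w)) => eval (ov 0 z) (pderiv o (F (I i)))) hind
    (fun i => η (I i))
  have hu' : ∀ i, dpol (F (I i)) (ov 0 z) u = η (I i) := hu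
  have hF0 : ∀ j, eval (ov 0 z) (F j) = 0 := by
    rw [hfd.zero]
    exact ⟨rfl, hz⟩
  refine ⟨u, fun j => ?_⟩
  have h1 := hη (fun k => (if k = j then h else 0) - ∑ i, (if k = I i then P j i else 0)) (by
    simp only [sub_mul, Finset.sum_sub_distrib, ite_mul, zero_mul, Finset.sum_mul]
    rw [Finset.sum_ite_eq' Finset.univ j, if_pos (Finset.mem_univ _), Finset.sum_comm, hP j, sub_eq_zero]
    refine Finset.sum_congr rfl fun i _ => ?_
    rw [Finset.sum_ite_eq' Finset.univ (I i), if_pos (Finset.mem_univ _)])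
  have h2 : eval (ov 0 z) h * η j = ∑ i, eval (ov 0 z) (P j i) * η (I i) := by
    rw [← sub_eq_zero]
    refine Eq.trans ?_ h1
    simp only [map_sub, map_sum, sub_mul, Finset.sum_sub_distrib, Finset.sum_mul]
    congr 1
    · rw [Finset.sum_eq_single j]
      · simp
      · intro k _ hk
        simp [hk]
      · simp
    · rw [Finset.sum_comm]
      refine Finset.sum_congr rfl fun i _ => ?_
      rw [Finset.sum_eq_single (I i)]
      · simp
      · intro k _ hk
        simp [hk]
      · simp
  have h3 := congrArg (fun q => dpol q (ov 0 z) u) (hP j)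
  simp only [dpol_mul, dpol_sum, hF0, zero_mul, add_zero, hu'] at h3
  rw [← h3] at h2
  exact mul_left_cancel₀ hh h2

end Pool.Agent.Helper87.VM
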